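import Pool.Agent.H174.GP.StA
import Pool.Agent.H174.GP.StP
import Pool.Agent.H174.GP.StC

open MeasureTheory ProbabilityTheory Finset

namespace Pool.Agent.H671.GP174

open Pool.Agent.H174.GP

theorem gp_admch (h1 : S_L1) : Pool.Agent.H174.GP.S_AdmCh := by
  obtain ⟨m2, m4, -, hi, -, -⟩ := h1
  intro L
  have e2 : ∀ j : ℕ, (∫ x, (x / (j : ℝ)) ^ 2 ∂lap) = 2 / (j : ℝ) ^ 2 := by
    intro j
    simp only [div_pow]
    rw [integral_div, m2]
  have e4 : ∀ j : ℕ, (∫ x, (x / (j : ℝ)) ^ 4 ∂lap) = 24 / (j : ℝ) ^ 4 := by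
    intro j
    simp only [div_pow]
    rw [integral_div, m4]
  refine ⟨one_pos, ?_, ?_, ?_, ?_, ?_, ?_⟩
  · intro j _ x
    exact neg_div _ _
  · intro j _ x y hxy
    exact div_le_div_of_nonneg_right hxy (Nat.cast_nonneg j)
  · intro j _
    rw [e2 j]
    simp
  · intro j _
    rw [e2 j]
    simp
  · intro j _
    rw [e4 j]
    simp
  · intro j _
    simp only [div_pow]
    exact (hi 4).div_const _

end Pool.Agent.H671.GP174
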