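import Pool.Agent.H174.GP.StP

open MeasureTheory ProbabilityTheory Finset

namespace Pool.Agent.H671.GP174

open Pool.Agent.H174.GP

theorem lap_symm (f : ℝ → ℝ) : (∫ x, f (-x) ∂lap) = ∫ x, f x ∂lap := by
  unfold lap
  have hm : Measurable (fun x : ℝ => ENNReal.ofReal (Real.exp (-|x|) / 2)) := by fun_prop
  have hf : ∀ᵐ x : ℝ ∂(volume : Measure ℝ), ENNReal.ofReal (Real.exp (-|x|) / 2) < ⊤ :=
    Filter.Eventually.of_forall (fun x => ENNReal.ofReal_lt_top)
  rw [integral_withDensity_eq_integral_toReal_smul hm hf,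
    integral_withDensity_eq_integral_toReal_smul hm hf,
    ← integral_neg_eq_self (fun x : ℝ => (ENNReal.ofReal (Real.exp (-|x|) / 2)).toReal • f x)]
  simp only [abs_neg]

theorem gp_l6 (_h1 : S_L1) : Pool.Agent.H174.GP.S_L6 := by
  intro b η hb hη hbη
  have hY : ∀ z : ℝ, |(|z| - |z - η|)| ≤ η := by
    intro z
    have h := abs_abs_sub_abs_le z (z - η)
    have h2 : |z - (z - η)| = η := by
      rw [sub_sub_cancel, abs_of_nonneg hη]
    rw [h2] at h
    exact h
  have hYi : Integrable (fun z : ℝ => |z| - |z - η|) lap := by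
    refine Integrable.of_bound (Continuous.aestronglyMeasurable (by fun_prop)) η ?_
    exact Filter.Eventually.of_forall (fun z => by rw [Real.norm_eq_abs]; exact hY z)
  have hYi' : Integrable (fun z : ℝ => |(-z)| - |(-z) - η|) lap := by
    refine Integrable.of_bound (Continuous.aestronglyMeasurable (by fun_prop)) η ?_
    exact Filter.Eventually.of_forall (fun z => by rw [Real.norm_eq_abs]; exact hY (-z))
  have hEY : (∫ z, (|z| - |z - η|) ∂lap) ≤ 0 := by
    have hs := lap_symm (fun z : ℝ => |z| - |z - η|)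
    have hadd : (∫ z, ((|z| - |z - η|) + (|(-z)| - |(-z) - η|)) ∂lap)
        = (∫ z, (|z| - |z - η|) ∂lap) + ∫ z, (|(-z)| - |(-z) - η|) ∂lap :=
      integral_add hYi hYi'
    have hle : (∫ z, ((|z| - |z - η|) + (|(-z)| - |(-z) - η|)) ∂lap) ≤ 0 := by
      apply integral_nonpos
      intro z
      have e1 : |(-z)| = |z| := abs_neg z
      have e2 : |(-z) - η| = |z + η| := by
        have h7 : (-z) - η = -(z + η) := by ring
        rw [h7, abs_neg]
      have e3 : |z + z| ≤ |z - η| + |z + η| := by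
        have := abs_add_le (z - η) (z + η)
        have h4 : (z - η) + (z + η) = z + z := by ring
        rwa [h4] at this
      have e4 : |z + z| = |z| + |z| := by
        rw [← two_mul, abs_mul, abs_two, two_mul]
      show (|z| - |z - η|) + (|(-z)| - |(-z) - η|) ≤ 0
      rw [e1, e2]
      linarith
    have hs' : (∫ z, (|(-z)| - |(-z) - η|) ∂lap) = ∫ z, (|z| - |z - η|) ∂lap := hs
    rw [hadd, hs'] at hle
    linarith
  have hexp : ∀ z : ℝ, Real.exp (b * (|z| - |z - η|)) ≤ (1 + b ^ 2 * η ^ 2) + b * (|z| - |z - η|) := by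
    intro z
    have hy : |b * (|z| - |z - η|)| ≤ b * η := by
      rw [abs_mul, abs_of_pos hb]
      exact mul_le_mul_of_nonneg_left (hY z) hb.le
    have hy1 : |b * (|z| - |z - η|)| ≤ 1 := by linarith
    have h3 := Real.abs_exp_sub_one_sub_id_le hy1
    have h4 := (abs_le.mp h3).2
    have h5 : (b * (|z| - |z - η|)) ^ 2 ≤ (b * η) ^ 2 := by
      rw [← sq_abs (b * (|z| - |z - η|))]
      exact pow_le_pow_left₀ (abs_nonneg _) hy 2
    have h6 : (b * η) ^ 2 = b ^ 2 * η ^ 2 := by ring
    linarith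
  have hint1 : Integrable (fun z : ℝ => Real.exp (b * (|z| - |z - η|))) lap := by
    refine Integrable.of_bound (Continuous.aestronglyMeasurable (by fun_prop)) (Real.exp (b * η)) ?_
    refine Filter.Eventually.of_forall (fun z => ?_)
    rw [Real.norm_eq_abs, abs_of_pos (Real.exp_pos _)]
    apply Real.exp_le_exp.mpr
    exact mul_le_mul_of_nonneg_left ((abs_le.mp (hY z)).2) hb.le
  have hint2 : Integrable (fun z : ℝ => (1 + b ^ 2 * η ^ 2) + b * (|z| - |z - η|)) lap :=
    (integrable_const _).add (hYi.const_mul b)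
  calc (∫ z, Real.exp (b * (|z| - |z - η|)) ∂lap)
      ≤ ∫ z, ((1 + b ^ 2 * η ^ 2) + b * (|z| - |z - η|)) ∂lap := integral_mono hint1 hint2 hexp
    _ = (1 + b ^ 2 * η ^ 2) + b * ∫ z, (|z| - |z - η|) ∂lap := by
        rw [integral_add (integrable_const _) (hYi.const_mul b), integral_const_mul]
        simp
    _ ≤ 1 + b ^ 2 * η ^ 2 := by
        have := mul_nonpos_of_nonneg_of_nonpos hb.le hEY
        linarith
    _ ≤ Real.exp (b ^ 2 * η ^ 2) := by
        have := Real.add_one_le_exp (b ^ 2 * η ^ 2)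
        linarith

end Pool.Agent.H671.GP174
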